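import Mathlib

/-!
# Monotone circuits and cliques

Two-sided approximation (short DNF, short CNF) of the gates of a monotone circuit with inputs the
edges of a graph, on complete graphs on a vertex set and on complete multipartite graphs.
-/

set_option autoImplicit false

namespace Pool.Agent.helper51.MC

variable {n : ℕ}

/-- `X` contains two different vertices with the same label. -/
def Hits (p : Fin n → Fin n) (X : Finset (Fin n)) : Prop := ∃ u ∈ X, ∃ v ∈ X, u ≠ v ∧ p u = p v

theorem Hits.mono {p : Fin n → Fin n} {X Y : Finset (Fin n)} (h : Hits p X) (hXY : X ⊆ Y) :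
    Hits p Y := by
  obtain ⟨u, hu, v, hv, h1, h2⟩ := h
  exact ⟨u, hXY hu, v, hXY hv, h1, h2⟩

/-- The nontrivial classes of the labelling live on few vertices. -/
def Small (b : ℕ) (p : Fin n → Fin n) : Prop :=
  ∃ W : Finset (Fin n), W.card ≤ 2 * b ∧ ∀ u v, p u = p v → u ≠ v → u ∈ W ∧ v ∈ W

/-- expansion of a CNF -/
theorem cnf_to_dnf (a B : ℕ) (hB : 1 ≤ B) (C : Set (Fin n → Fin n))
    (hC : ∀ p ∈ C, ∃ P : Finset (Fin n × Fin n), P.card ≤ B ∧
      ∀ u v, p u = p v → u ≠ v → (u, v) ∈ P) :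
    ∃ F : Finset (Finset (Fin n)), F.card ≤ B ^ (a + 1) ∧ (∀ X ∈ F, a + 1 ≤ X.card) ∧
      ∀ K : Finset (Fin n), (∀ p ∈ C, Hits p K) →
        (∃ X ⊆ K, X.card ≤ a ∧ ∀ p ∈ C, Hits p X) ∨ ∃ X ∈ F, X ⊆ K := by
  classical
  have key : ∀ r : ℕ, ∀ X0 : Finset (Fin n), a + 1 ≤ X0.card + r →
      ∃ F : Finset (Finset (Fin n)), F.card ≤ B ^ r ∧ (∀ X ∈ F, a + 1 ≤ X.card) ∧
      ∀ K : Finset (Fin n), X0 ⊆ K → (∀ p ∈ C, Hits p K) →
        (∃ X ⊆ K, X.card ≤ a ∧ ∀ p ∈ C, Hits p X) ∨ ∃ X ∈ F, X ⊆ K := by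
    intro r
    induction r with
    | zero =>
      intro X0 h0
      refine ⟨{X0}, by simp, ?_, ?_⟩
      · intro X hX
        rw [Finset.mem_singleton.1 hX]
        exact h0
      · intro K hK _
        exact Or.inr ⟨X0, Finset.mem_singleton_self _, hK⟩
    | succ r ih =>
      intro X0 h0
      by_cases hbig : a + 1 ≤ X0.card
      · refine ⟨{X0}, ?_, ?_, ?_⟩
        · rw [Finset.card_singleton]
          exact Nat.one_le_pow _ _ hB
        · intro X hX
          rw [Finset.mem_singleton.1 hX]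
          exact hbig
        · intro K hK _
          exact Or.inr ⟨X0, Finset.mem_singleton_self _, hK⟩
      · by_cases hall : ∀ p ∈ C, Hits p X0
        · refine ⟨∅, by simp, by simp, ?_⟩
          intro K hK _
          exact Or.inl ⟨X0, hK, by omega, hall⟩
        · push Not at hall
          obtain ⟨p, hp, hnot⟩ := hall
          obtain ⟨P, hPB, hP⟩ := hC p hp
          have hstep : ∀ e : Fin n × Fin n, ∃ F : Finset (Finset (Fin n)), F.card ≤ B ^ r ∧
              (∀ X ∈ F, a + 1 ≤ X.card) ∧ ∀ K : Finset (Fin n), e.1 ∈ K → e.2 ∈ K → e.1 ≠ e.2 →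
              p e.1 = p e.2 → X0 ⊆ K → (∀ p ∈ C, Hits p K) →
              (∃ X ⊆ K, X.card ≤ a ∧ ∀ p ∈ C, Hits p X) ∨ ∃ X ∈ F, X ⊆ K := by
            rintro ⟨u, v⟩
            by_cases huv : u ≠ v ∧ p u = p v
            · obtain ⟨F, hF1, hF2, hF3⟩ := ih (insert u (insert v X0)) (by
                have hnn : ¬ (u ∈ X0 ∧ v ∈ X0) := fun h =>
                  hnot ⟨u, h.1, v, h.2, huv.1, huv.2⟩
                have hlt : X0.card < (insert u (insert v X0)).card := by
                  apply Finset.card_lt_card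
                  refine ⟨fun x hx => Finset.mem_insert_of_mem (Finset.mem_insert_of_mem hx), ?_⟩
                  intro hsub
                  exact hnn ⟨hsub (Finset.mem_insert_self _ _),
                    hsub (Finset.mem_insert_of_mem (Finset.mem_insert_self _ _))⟩
                omega)
              refine ⟨F, hF1, hF2, ?_⟩
              intro K hu hv _ _ hX0 hK
              exact hF3 K (Finset.insert_subset hu (Finset.insert_subset hv hX0)) hK
            · refine ⟨∅, by simp, by simp, ?_⟩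
              intro K _ _ h1 h2
              exact absurd ⟨h1, h2⟩ huv
          choose F hF1 hF2 hF3 using hstep
          refine ⟨P.biUnion F, ?_, ?_, ?_⟩
          · refine Finset.card_biUnion_le.trans ?_
            refine (Finset.sum_le_card_nsmul P _ (B ^ r) (fun e _ => hF1 e)).trans ?_
            rw [smul_eq_mul, pow_succ']
            exact Nat.mul_le_mul_right _ hPB
          · intro X hX
            obtain ⟨e, _, he⟩ := Finset.mem_biUnion.1 hX
            exact hF2 e X he
          · intro K hX0 hK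
            obtain ⟨u, hu, v, hv, h1, h2⟩ := hK p hp
            rcases hF3 (u, v) K hu hv h1 h2 hX0 hK with h | ⟨X, hX, hXK⟩
            · exact Or.inl h
            · exact Or.inr ⟨X, Finset.mem_biUnion.2 ⟨(u, v), hP u v h2 h1, hX⟩, hXK⟩
  obtain ⟨F, h1, h2, h3⟩ := key (a + 1) ∅ (by simp)
  exact ⟨F, h1, h2, fun K hK => h3 K (Finset.empty_subset _) hK⟩

/-- join the classes of `u` and `v` -/
def join (p : Fin n → Fin n) (u v : Fin n) : Fin n → Fin n :=
  fun x => if p x = p v then p u else p x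

theorem join_card {p : Fin n → Fin n} {u v : Fin n} (h : p u ≠ p v) :
    ((Finset.univ : Finset (Fin n)).image (join p u v)).card + 1 ≤
      ((Finset.univ : Finset (Fin n)).image p).card := by
  classical
  have hsub : (Finset.univ : Finset (Fin n)).image (join p u v) ⊆
      ((Finset.univ : Finset (Fin n)).image p).erase (p v) := by
    intro y hy
    obtain ⟨x, -, rfl⟩ := Finset.mem_image.1 hy
    rw [Finset.mem_erase]
    unfold join
    split_ifs with h1
    · exact ⟨h, Finset.mem_image_of_mem _ (Finset.mem_univ _)⟩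
    · exact ⟨h1, Finset.mem_image_of_mem _ (Finset.mem_univ _)⟩
  have h1 := Finset.card_le_card hsub
  rw [Finset.card_erase_of_mem (Finset.mem_image_of_mem _ (Finset.mem_univ _))] at h1
  have h2 : 0 < ((Finset.univ : Finset (Fin n)).image p).card :=
    Finset.card_pos.2 ⟨p v, Finset.mem_image_of_mem _ (Finset.mem_univ _)⟩
  omega

theorem join_ker {p : Fin n → Fin n} {u v : Fin n} {c : ℕ} {χ : Fin n → Fin c}
    (hp : ∀ x y, p x = p y → χ x = χ y) (h : χ u = χ v) :
    ∀ x y, join p u v x = join p u v y → χ x = χ y := by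
  intro x y hxy
  unfold join at hxy
  split_ifs at hxy with h1 h2 h2
  · exact hp x y (h1.trans h2.symm)
  · rw [hp x v h1, ← h]
    exact hp u y hxy
  · rw [hp y v h2, ← h]
    exact hp x u hxy
  · exact hp x y hxy

theorem join_small {p : Fin n → Fin n} {u v : Fin n} {W : Finset (Fin n)}
    (hW : ∀ x y, p x = p y → x ≠ y → x ∈ W ∧ y ∈ W) :
    ∀ x y, join p u v x = join p u v y → x ≠ y →
      x ∈ insert u (insert v W) ∧ y ∈ insert u (insert v W) := by
  classical
  have aux : ∀ x z, p x = p z → x = z ∨ x ∈ W := by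
    intro x z h
    by_cases hxz : x = z
    · exact Or.inl hxz
    · exact Or.inr (hW x z h hxz).1
  have aux1 : ∀ x, p x = p u → x ∈ insert u (insert v W) := by
    intro x h
    rcases aux x u h with h | h
    · rw [h]; exact Finset.mem_insert_self _ _
    · exact Finset.mem_insert_of_mem (Finset.mem_insert_of_mem h)
  have aux2 : ∀ x, p x = p v → x ∈ insert u (insert v W) := by
    intro x h
    rcases aux x v h with h | h
    · rw [h]; exact Finset.mem_insert_of_mem (Finset.mem_insert_self _ _)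
    · exact Finset.mem_insert_of_mem (Finset.mem_insert_of_mem h)
  intro x y hxy hne
  unfold join at hxy
  split_ifs at hxy with h1 h2 h2
  · exact ⟨aux2 x h1, aux2 y h2⟩
  · exact ⟨aux2 x h1, aux1 y hxy.symm⟩
  · exact ⟨aux1 x hxy, aux2 y h2⟩
  · obtain ⟨h3, h4⟩ := hW x y hxy hne
    exact ⟨Finset.mem_insert_of_mem (Finset.mem_insert_of_mem h3),
      Finset.mem_insert_of_mem (Finset.mem_insert_of_mem h4)⟩

/-- expansion of a DNF -/
theorem dnf_to_cnf (a b c : ℕ) (D : Set (Finset (Fin n)))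
    (hD : ∀ X ∈ D, X.card ≤ a) :
    ∃ F : Finset (Fin n → Fin n), F.card ≤ (a ^ 2) ^ (b + 1) ∧
      (∀ p ∈ F, ((Finset.univ : Finset (Fin n)).image p).card + (b + 1) ≤ n) ∧
      ∀ χ : Fin n → Fin c, (∀ X ∈ D, ∃ u ∈ X, ∃ v ∈ X, u ≠ v ∧ χ u = χ v) →
        (∃ p, Small b p ∧ (∀ X ∈ D, Hits p X) ∧ ∀ x y, p x = p y → χ x = χ y) ∨
          ∃ p ∈ F, ∀ x y, p x = p y → χ x = χ y := by
  classical
  have key : ∀ r : ℕ, ∀ (t : ℕ) (p0 : Fin n → Fin n) (W0 : Finset (Fin n)), t + r = b + 1 →
      W0.card ≤ 2 * t → (∀ x y, p0 x = p0 y → x ≠ y → x ∈ W0 ∧ y ∈ W0) →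
      ((Finset.univ : Finset (Fin n)).image p0).card + t ≤ n →
      ∃ F : Finset (Fin n → Fin n), F.card ≤ (a ^ 2) ^ r ∧
      (∀ p ∈ F, ((Finset.univ : Finset (Fin n)).image p).card + (b + 1) ≤ n) ∧
      ∀ χ : Fin n → Fin c, (∀ x y, p0 x = p0 y → χ x = χ y) →
        (∀ X ∈ D, ∃ u ∈ X, ∃ v ∈ X, u ≠ v ∧ χ u = χ v) →
        (∃ p, Small b p ∧ (∀ X ∈ D, Hits p X) ∧ ∀ x y, p x = p y → χ x = χ y) ∨
          ∃ p ∈ F, ∀ x y, p x = p y → χ x = χ y := by
    intro r
    induction r with
    | zero =>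
      intro t p0 W0 ht hW hW0 hcard
      refine ⟨{p0}, by simp, ?_, ?_⟩
      · intro p hp
        rw [Finset.mem_singleton.1 hp]
        have : t = b + 1 := by omega
        rw [← this]; exact hcard
      · intro χ hχ _
        exact Or.inr ⟨p0, Finset.mem_singleton_self _, hχ⟩
    | succ r ih =>
      intro t p0 W0 ht hW hW0 hcard
      by_cases hall : ∀ X ∈ D, Hits p0 X
      · refine ⟨∅, by simp, by simp, ?_⟩
        intro χ hχ _
        exact Or.inl ⟨p0, ⟨W0, by omega, hW0⟩, hall, hχ⟩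
      · push Not at hall
        obtain ⟨X, hX, hnot⟩ := hall
        have hstep : ∀ e : Fin n × Fin n, ∃ F : Finset (Fin n → Fin n), F.card ≤ (a ^ 2) ^ r ∧
            (∀ p ∈ F, ((Finset.univ : Finset (Fin n)).image p).card + (b + 1) ≤ n) ∧
            (e.1 ∈ X → e.2 ∈ X → ∀ χ : Fin n → Fin c, e.1 ≠ e.2 → χ e.1 = χ e.2 →
              (∀ x y, p0 x = p0 y → χ x = χ y) →
              (∀ X ∈ D, ∃ u ∈ X, ∃ v ∈ X, u ≠ v ∧ χ u = χ v) →
              (∃ p, Small b p ∧ (∀ X ∈ D, Hits p X) ∧ ∀ x y, p x = p y → χ x = χ y) ∨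
                ∃ p ∈ F, ∀ x y, p x = p y → χ x = χ y) := by
          rintro ⟨u, v⟩
          by_cases huv : u ∈ X ∧ v ∈ X ∧ u ≠ v
          · have hp0 : p0 u ≠ p0 v := fun h =>
              hnot ⟨u, huv.1, v, huv.2.1, huv.2.2, h⟩
            obtain ⟨F, hF1, hF2, hF3⟩ := ih (t + 1) (join p0 u v) (insert u (insert v W0))
              (by omega) (by
                have h1 := Finset.card_insert_le u (insert v W0)
                have h2 := Finset.card_insert_le v W0
                omega) (join_small hW0) (by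
                have := join_card hp0
                omega)
            refine ⟨F, hF1, hF2, ?_⟩
            intro _ _ χ _ h2 h3 h4
            exact hF3 χ (join_ker h3 h2) h4
          · refine ⟨∅, by simp, by simp, ?_⟩
            intro h1 h2 χ h3
            exact absurd ⟨h1, h2, h3⟩ huv
        choose F hF1 hF2 hF3 using hstep
        refine ⟨(X ×ˢ X).biUnion F, ?_, ?_, ?_⟩
        · refine Finset.card_biUnion_le.trans ?_
          refine (Finset.sum_le_card_nsmul _ _ ((a ^ 2) ^ r) (fun e _ => hF1 e)).trans ?_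
          rw [smul_eq_mul, Finset.card_product, pow_succ' (a ^ 2) r]
          refine Nat.mul_le_mul_right _ ?_
          rw [pow_two]
          exact Nat.mul_le_mul (hD X hX) (hD X hX)
        · intro p hp
          obtain ⟨e, _, he⟩ := Finset.mem_biUnion.1 hp
          exact hF2 e p he
        · intro χ hχ hall
          obtain ⟨u, hu, v, hv, h1, h2⟩ := hall X hX
          rcases hF3 (u, v) hu hv χ h1 h2 hχ hall with h | ⟨p, hp, hpχ⟩
          · exact Or.inl h
          · exact Or.inr ⟨p, Finset.mem_biUnion.2 ⟨(u, v), Finset.mem_product.2 ⟨hu, hv⟩, hp⟩, hpχ⟩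
  obtain ⟨F, h1, h2, h3⟩ := key (b + 1) 0 id ∅ (by omega) (by simp)
    (fun x y h hne => absurd h hne) (by simp)
  exact ⟨F, h1, h2, fun χ hχ => h3 χ (fun x y h => congrArg χ h) hχ⟩

/-! ### test graphs -/

/-- the complete graph on `K` -/
def posG (K : Finset (Fin n)) : SimpleGraph (Fin n) where
  Adj u v := u ≠ v ∧ u ∈ K ∧ v ∈ K
  symm := ⟨fun _ _ h => ⟨h.1.symm, h.2.2, h.2.1⟩⟩
  loopless := ⟨fun _ h => h.1 rfl⟩

/-- the complete multipartite graph of a colouring -/
def negG {c : ℕ} (χ : Fin n → Fin c) : SimpleGraph (Fin n) where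
  Adj u v := χ u ≠ χ v
  symm := ⟨fun _ _ h => h.symm⟩
  loopless := ⟨fun _ h => h rfl⟩

/-- a gate of a monotone circuit -/
inductive IsGate {S : ℕ} (F : Fin S → SimpleGraph (Fin n) → Prop) (i : Fin S) : Prop
  | edge (u v : Fin n) (h : ∀ G, F i G ↔ G.Adj u v) : IsGate F i
  | and (T : Set (Fin S)) (hT : ∀ j ∈ T, j < i) (h : ∀ G, F i G ↔ ∀ j ∈ T, F j G) : IsGate F i
  | or (T : Set (Fin S)) (hT : ∀ j ∈ T, j < i) (h : ∀ G, F i G ↔ ∃ j ∈ T, F j G) : IsGate F i

/-- properties of the approximators of the gate `j` -/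
structure Prp (a b c : ℕ) {S : ℕ} (F : Fin S → SimpleGraph (Fin n) → Prop)
    (D : Fin S → Set (Finset (Fin n))) (C : Fin S → Set (Fin n → Fin n))
    (P : Fin S → Finset (Finset (Fin n))) (Q : Fin S → Finset (Fin n → Fin n)) (j : Fin S) :
    Prop where
  cP : (P j).card ≤ ((2 * b) ^ 2) ^ (a + 1)
  cP' : ∀ X ∈ P j, a + 1 ≤ X.card
  cQ : (Q j).card ≤ (a ^ 2) ^ (b + 1)
  cQ' : ∀ p ∈ Q j, ((Finset.univ : Finset (Fin n)).image p).card + (b + 1) ≤ n
  dD : ∀ X ∈ D j, X.card ≤ a
  dC : ∀ p ∈ C j, Small b p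
  hit : ∀ X ∈ D j, ∀ p ∈ C j, Hits p X
  pos : ∀ K : Finset (Fin n), (∀ i ≤ j, ∀ X ∈ P i, ¬ X ⊆ K) → F j (posG K) →
    ∃ X ∈ D j, X ⊆ K
  neg : ∀ χ : Fin n → Fin c, (∀ i ≤ j, ∀ p ∈ Q i, ¬ ∀ x y, p x = p y → χ x = χ y) →
    ¬ F j (negG χ) → ∃ p ∈ C j, ∀ x y, p x = p y → χ x = χ y

theorem small_pairs {b : ℕ} {p : Fin n → Fin n} (h : Small b p) :
    ∃ P : Finset (Fin n × Fin n), P.card ≤ (2 * b) ^ 2 ∧
      ∀ u v, p u = p v → u ≠ v → (u, v) ∈ P := by
  obtain ⟨W, hW, h1⟩ := h
  refine ⟨W ×ˢ W, ?_, ?_⟩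
  · rw [Finset.card_product, pow_two]
    exact Nat.mul_le_mul hW hW
  · intro u v h2 h3
    exact Finset.mem_product.2 (h1 u v h2 h3)

/-- **approximation of all gates** -/
theorem approx (a b c : ℕ) (ha : 2 ≤ a) (hb : 1 ≤ b) {S : ℕ}
    (F : Fin S → SimpleGraph (Fin n) → Prop) (hF : ∀ i, IsGate F i) :
    ∃ (D : Fin S → Set (Finset (Fin n))) (C : Fin S → Set (Fin n → Fin n))
      (P : Fin S → Finset (Finset (Fin n))) (Q : Fin S → Finset (Fin n → Fin n)),
      ∀ j, Prp a b c F D C P Q j := by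
  classical
  have key : ∀ i : ℕ, i ≤ S → ∃ (D : Fin S → Set (Finset (Fin n)))
      (C : Fin S → Set (Fin n → Fin n)) (P : Fin S → Finset (Finset (Fin n)))
      (Q : Fin S → Finset (Fin n → Fin n)),
      ∀ j : Fin S, (j : ℕ) < i → Prp a b c F D C P Q j := by
    intro i
    induction i with
    | zero =>
      intro _
      exact ⟨fun _ => ∅, fun _ => ∅, fun _ => ∅, fun _ => ∅,
        fun j hj => absurd hj (Nat.not_lt_zero _)⟩
    | succ i ih =>
      intro hi
      obtain ⟨D, C, P, Q, h⟩ := ih (by omega)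
      set g : Fin S := ⟨i, by omega⟩ with hg
      -- it suffices to find the data of the new gate
      suffices hnew : ∃ (D0 : Set (Finset (Fin n))) (C0 : Set (Fin n → Fin n))
          (P0 : Finset (Finset (Fin n))) (Q0 : Finset (Fin n → Fin n)),
          P0.card ≤ ((2 * b) ^ 2) ^ (a + 1) ∧ (∀ X ∈ P0, a + 1 ≤ X.card) ∧
          Q0.card ≤ (a ^ 2) ^ (b + 1) ∧
          (∀ p ∈ Q0, ((Finset.univ : Finset (Fin n)).image p).card + (b + 1) ≤ n) ∧
          (∀ X ∈ D0, X.card ≤ a) ∧ (∀ p ∈ C0, Small b p) ∧ (∀ X ∈ D0, ∀ p ∈ C0, Hits p X) ∧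
          (∀ K : Finset (Fin n), (∀ j < g, ∀ X ∈ P j, ¬ X ⊆ K) → (∀ X ∈ P0, ¬ X ⊆ K) →
            F g (posG K) → ∃ X ∈ D0, X ⊆ K) ∧
          (∀ χ : Fin n → Fin c, (∀ j < g, ∀ p ∈ Q j, ¬ ∀ x y, p x = p y → χ x = χ y) →
            (∀ p ∈ Q0, ¬ ∀ x y, p x = p y → χ x = χ y) → ¬ F g (negG χ) →
            ∃ p ∈ C0, ∀ x y, p x = p y → χ x = χ y) by
        obtain ⟨D0, C0, P0, Q0, h1, h2, h3, h4, h5, h6, h7, h8, h9⟩ := hnew
        refine ⟨Function.update D g D0, Function.update C g C0, Function.update P g P0,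
          Function.update Q g Q0, ?_⟩
        intro j hj
        by_cases hjg : j = g
        · rw [hjg]
          have hlt : ∀ i' : Fin S, i' < g → i' ≠ g := fun i' h => ne_of_lt h
          refine ⟨?_, ?_, ?_, ?_, ?_, ?_, ?_, ?_, ?_⟩
          · rw [Function.update_self]; exact h1
          · rw [Function.update_self]; exact h2
          · rw [Function.update_self]; exact h3
          · rw [Function.update_self]; exact h4
          · rw [Function.update_self]; exact h5
          · rw [Function.update_self]; exact h6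
          · rw [Function.update_self, Function.update_self]; exact h7
          · rw [Function.update_self]
            intro K hK hFK
            refine h8 K ?_ ?_ hFK
            · intro j' hj' X hX
              have := hK j' hj'.le X
              rw [Function.update_of_ne (hlt j' hj')] at this
              exact this hX
            · intro X hX
              have := hK g le_rfl X
              rw [Function.update_self] at this
              exact this hX
          · rw [Function.update_self]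
            intro χ hχ hFχ
            refine h9 χ ?_ ?_ hFχ
            · intro j' hj' p hp
              have := hχ j' hj'.le p
              rw [Function.update_of_ne (hlt j' hj')] at this
              exact this hp
            · intro p hp
              have := hχ g le_rfl p
              rw [Function.update_self] at this
              exact this hp
        · have hji : (j : ℕ) < i := by
            have : (j : ℕ) ≠ i := fun h => hjg (Fin.ext h)
            omega
          have hle : ∀ i' : Fin S, i' ≤ j → i' ≠ g := by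
            intro i' hi' he
            rw [he] at hi'
            have : (g : ℕ) ≤ j := hi'
            rw [hg] at this
            simp only at this
            omega
          have hP := h j hji
          refine ⟨?_, ?_, ?_, ?_, ?_, ?_, ?_, ?_, ?_⟩
          · rw [Function.update_of_ne hjg]; exact hP.cP
          · rw [Function.update_of_ne hjg]; exact hP.cP'
          · rw [Function.update_of_ne hjg]; exact hP.cQ
          · rw [Function.update_of_ne hjg]; exact hP.cQ'
          · rw [Function.update_of_ne hjg]; exact hP.dD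
          · rw [Function.update_of_ne hjg]; exact hP.dC
          · rw [Function.update_of_ne hjg, Function.update_of_ne hjg]; exact hP.hit
          · rw [Function.update_of_ne hjg]
            intro K hK hFK
            refine hP.pos K ?_ hFK
            intro i' hi' X hX
            have := hK i' hi' X
            rw [Function.update_of_ne (hle i' hi')] at this
            exact this hX
          · rw [Function.update_of_ne hjg]
            intro χ hχ hFχ
            refine hP.neg χ ?_ hFχ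
            intro i' hi' p hp
            have := hχ i' hi' p
            rw [Function.update_of_ne (hle i' hi')] at this
            exact this hp
      -- DNF gates
      have hdnf : ∀ D0 : Set (Finset (Fin n)), (∀ X ∈ D0, X.card ≤ a) →
          (∀ K : Finset (Fin n), (∀ j < g, ∀ X ∈ P j, ¬ X ⊆ K) → F g (posG K) →
            ∃ X ∈ D0, X ⊆ K) →
          (∀ χ : Fin n → Fin c, (∀ j < g, ∀ p ∈ Q j, ¬ ∀ x y, p x = p y → χ x = χ y) →
            ¬ F g (negG χ) → ∀ X ∈ D0, ∃ u ∈ X, ∃ v ∈ X, u ≠ v ∧ χ u = χ v) →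
          ∃ (D0 : Set (Finset (Fin n))) (C0 : Set (Fin n → Fin n))
          (P0 : Finset (Finset (Fin n))) (Q0 : Finset (Fin n → Fin n)),
          P0.card ≤ ((2 * b) ^ 2) ^ (a + 1) ∧ (∀ X ∈ P0, a + 1 ≤ X.card) ∧
          Q0.card ≤ (a ^ 2) ^ (b + 1) ∧
          (∀ p ∈ Q0, ((Finset.univ : Finset (Fin n)).image p).card + (b + 1) ≤ n) ∧
          (∀ X ∈ D0, X.card ≤ a) ∧ (∀ p ∈ C0, Small b p) ∧ (∀ X ∈ D0, ∀ p ∈ C0, Hits p X) ∧
          (∀ K : Finset (Fin n), (∀ j < g, ∀ X ∈ P j, ¬ X ⊆ K) → (∀ X ∈ P0, ¬ X ⊆ K) →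
            F g (posG K) → ∃ X ∈ D0, X ⊆ K) ∧
          (∀ χ : Fin n → Fin c, (∀ j < g, ∀ p ∈ Q j, ¬ ∀ x y, p x = p y → χ x = χ y) →
            (∀ p ∈ Q0, ¬ ∀ x y, p x = p y → χ x = χ y) → ¬ F g (negG χ) →
            ∃ p ∈ C0, ∀ x y, p x = p y → χ x = χ y) := by
        intro D0 hD0 hpos hneg
        obtain ⟨Q0, hQ1, hQ2, hQ3⟩ := dnf_to_cnf a b c D0 hD0
        refine ⟨D0, {p | Small b p ∧ ∀ X ∈ D0, Hits p X}, ∅, Q0, by simp, by simp, hQ1, hQ2, hD0,
          fun p hp => hp.1, fun X hX p hp => hp.2 X hX, fun K h1 _ h2 => hpos K h1 h2, ?_⟩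
        intro χ h1 h2 h3
        rcases hQ3 χ (hneg χ h1 h3) with ⟨p, h4, h5, h6⟩ | ⟨p, hp, h4⟩
        · exact ⟨p, ⟨h4, h5⟩, h6⟩
        · exact absurd h4 (h2 p hp)
      have hsub : ∀ j : Fin S, j < g → (j : ℕ) < i := fun j hj => hj
      rcases hF g with ⟨u, v, hE⟩ | ⟨T, hT, hE⟩ | ⟨T, hT, hE⟩
      · -- input gate
        refine hdnf {X | u ≠ v ∧ X = {u, v}} ?_ ?_ ?_
        · rintro X ⟨huv, rfl⟩
          exact (Finset.card_le_two).trans ha
        · intro K _ hFK
          rw [hE] at hFK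
          refine ⟨{u, v}, ⟨hFK.1, rfl⟩, ?_⟩
          intro x hx
          rcases Finset.mem_insert.1 hx with rfl | hx
          · exact hFK.2.1
          · rw [Finset.mem_singleton.1 hx]; exact hFK.2.2
        · rintro χ _ hFχ X ⟨huv, rfl⟩
          rw [hE] at hFχ
          have hFχ' : ¬ χ u ≠ χ v := hFχ
          push Not at hFχ'
          exact ⟨u, by simp, v, by simp, huv, hFχ'⟩
      · -- conjunction
        set C0 : Set (Fin n → Fin n) := {p | ∃ j ∈ T, p ∈ C j} with hC0
        have hC0s : ∀ p ∈ C0, Small b p := by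
          rintro p ⟨j, hj, hp⟩
          exact (h j (hsub j (hT j hj))).dC p hp
        obtain ⟨P0, hP1, hP2, hP3⟩ := cnf_to_dnf a ((2 * b) ^ 2)
          (Nat.one_le_pow _ _ (by omega)) C0 (fun p hp => small_pairs (hC0s p hp))
        refine ⟨{X | X.card ≤ a ∧ ∀ p ∈ C0, Hits p X}, C0, P0, ∅, hP1, hP2, by simp, by simp,
          fun X hX => hX.1, hC0s, fun X hX p hp => hX.2 p hp, ?_, ?_⟩
        · intro K h1 h2 h3
          rw [hE] at h3
          have hall : ∀ p ∈ C0, Hits p K := by
            rintro p ⟨j, hj, hp⟩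
            obtain ⟨X, hX, hXK⟩ := (h j (hsub j (hT j hj))).pos K
              (fun i' hi' => h1 i' (lt_of_le_of_lt hi' (hT j hj))) (h3 j hj)
            exact ((h j (hsub j (hT j hj))).hit X hX p hp).mono hXK
          rcases hP3 K hall with ⟨X, hXK, hXa, hX⟩ | ⟨X, hX, hXK⟩
          · exact ⟨X, ⟨hXa, hX⟩, hXK⟩
          · exact absurd hXK (h2 X hX)
        · intro χ h1 _ h3
          rw [hE] at h3
          push Not at h3
          obtain ⟨j, hj, hFj⟩ := h3
          obtain ⟨p, hp, hpχ⟩ := (h j (hsub j (hT j hj))).neg χ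
            (fun i' hi' => h1 i' (lt_of_le_of_lt hi' (hT j hj))) hFj
          exact ⟨p, ⟨j, hj, hp⟩, hpχ⟩
      · -- disjunction
        refine hdnf {X | ∃ j ∈ T, X ∈ D j} ?_ ?_ ?_
        · rintro X ⟨j, hj, hX⟩
          exact (h j (hsub j (hT j hj))).dD X hX
        · intro K h1 h2
          rw [hE] at h2
          obtain ⟨j, hj, hFj⟩ := h2
          obtain ⟨X, hX, hXK⟩ := (h j (hsub j (hT j hj))).pos K
            (fun i' hi' => h1 i' (lt_of_le_of_lt hi' (hT j hj))) hFj
          exact ⟨X, ⟨j, hj, hX⟩, hXK⟩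
        · rintro χ h1 h2 X ⟨j, hj, hX⟩
          have h3 : ¬ F j (negG χ) := fun h => h2 ((hE _).2 ⟨j, hj, h⟩)
          obtain ⟨p, hp, hpχ⟩ := (h j (hsub j (hT j hj))).neg χ
            (fun i' hi' => h1 i' (lt_of_le_of_lt hi' (hT j hj))) h3
          obtain ⟨u, hu, v, hv, huv, hpuv⟩ := (h j (hsub j (hT j hj))).hit X hX p hp
          exact ⟨u, hu, v, hv, huv, hpχ u v hpuv⟩
  obtain ⟨D, C, P, Q, h⟩ := key S le_rfl
  exact ⟨D, C, P, Q, fun j => h j j.2⟩

end Pool.Agent.helper51.MC
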