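import Mathlib

/-!
# Counting lemmas for the test graphs
-/

set_option autoImplicit false

namespace Pool.Agent.helper51.MC

open Finset

theorem card_fix_aux {α β : Type*} [Fintype α] [DecidableEq α] [Fintype β] [DecidableEq β]
    (I : Finset α) (x : α → β) (s : Finset (α → β)) (hs : ∀ f, f ∈ s ↔ ∀ i ∈ I, f i = x i) :
    s.card = Fintype.card β ^ (Fintype.card α - I.card) := by
  have h1 : s = Fintype.piFinset
      (fun i => if i ∈ I then {x i} else (Finset.univ : Finset β)) := by
    ext f
    rw [hs, Fintype.mem_piFinset]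
    refine forall_congr' fun i => ?_
    by_cases hi : i ∈ I
    · simp [hi]
    · simp [hi]
  rw [h1, Fintype.card_piFinset]
  have h2 : ∀ i, (if i ∈ I then ({x i} : Finset β) else Finset.univ).card =
      if i ∈ I then 1 else Fintype.card β := by
    intro i
    split_ifs
    · simp
    · simp
  simp_rw [h2]
  rw [Finset.prod_ite, Finset.prod_const_one, one_mul, Finset.prod_const]
  congr 1
  have h3 : (Finset.univ : Finset α).filter (fun i => i ∉ I) = Iᶜ := by
    ext i; simp
  rw [h3, Finset.card_compl]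

theorem card_respect {n c : ℕ} (p : Fin n → Fin n)
    [DecidablePred fun χ : Fin n → Fin c => ∀ x y, p x = p y → χ x = χ y] :
    ((Finset.univ : Finset (Fin n → Fin c)).filter
      (fun χ => ∀ x y, p x = p y → χ x = χ y)).card ≤
      c ^ ((Finset.univ : Finset (Fin n)).image p).card := by
  classical
  set J := (Finset.univ : Finset (Fin n)).image p with hJ
  have hg : ∀ y : J, ∃ x, p x = y := by
    rintro ⟨y, hy⟩
    obtain ⟨x, _, hx⟩ := Finset.mem_image.1 hy
    exact ⟨x, hx⟩
  choose g hg using hg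
  have h1 : ((Finset.univ : Finset (Fin n → Fin c)).filter
      (fun χ => ∀ x y, p x = p y → χ x = χ y)).card ≤
      (Finset.univ : Finset (J → Fin c)).card := by
    refine Finset.card_le_card_of_injOn (fun χ y => χ (g y)) (fun _ _ => Finset.mem_coe.2
      (Finset.mem_univ _)) ?_
    intro χ hχ χ' hχ' heq
    have hχ1 := (Finset.mem_filter.1 (Finset.mem_coe.1 hχ)).2
    have hχ2 := (Finset.mem_filter.1 (Finset.mem_coe.1 hχ')).2
    funext x
    have hx : p x ∈ J := Finset.mem_image_of_mem _ (Finset.mem_univ _)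
    have h2 : p x = p (g ⟨p x, hx⟩) := (hg ⟨p x, hx⟩).symm
    rw [hχ1 _ _ h2, hχ2 _ _ h2]
    exact congrFun heq ⟨p x, hx⟩
  refine h1.trans ?_
  rw [Finset.card_univ, Fintype.card_fun, Fintype.card_fin, Fintype.card_coe]

/-- A set of `k` vertices which contains no set of the given families. -/
theorem exists_good_set {n S : ℕ} (a k m N : ℕ) (hkm : k * m ≤ n)
    (P : Fin S → Finset (Finset (Fin n))) (hP : ∀ j, (P j).card ≤ N)
    (hP' : ∀ j, ∀ X ∈ P j, a + 1 ≤ X.card) (hS : S * N < m ^ (a + 1)) :
    ∃ K : Finset (Fin n), K.card = k ∧ ∀ j, ∀ X ∈ P j, ¬ X ⊆ K := by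
  classical
  have hm : 1 ≤ m := by
    rcases Nat.eq_zero_or_pos m with h | h
    · rw [h, Nat.zero_pow (by omega)] at hS
      omega
    · exact h
  have hcard : Fintype.card (Fin k × Fin m) ≤ Fintype.card (Fin n) := by
    rw [Fintype.card_prod, Fintype.card_fin, Fintype.card_fin, Fintype.card_fin]
    exact hkm
  obtain ⟨e⟩ := Function.Embedding.nonempty_of_card_le hcard
  set Kf : (Fin k → Fin m) → Finset (Fin n) := fun f =>
    (Finset.univ : Finset (Fin k)).image (fun i => e (i, f i)) with hKf
  have hKcard : ∀ f, (Kf f).card = k := by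
    intro f
    rw [hKf]
    simp only
    rw [Finset.card_image_of_injective, Finset.card_univ, Fintype.card_fin]
    intro i j hij
    have := e.injective hij
    exact (Prod.ext_iff.1 this).1
  -- the bad functions of a set
  have hbad : ∀ X : Finset (Fin n), a + 1 ≤ X.card →
      ((Finset.univ : Finset (Fin k → Fin m)).filter (fun f => X ⊆ Kf f)).card * m ^ (a + 1) ≤
        m ^ k := by
    intro X hX
    rcases Finset.eq_empty_or_nonempty
      ((Finset.univ : Finset (Fin k → Fin m)).filter (fun f => X ⊆ Kf f)) with h0 | ⟨f0, hf0⟩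
    · rw [h0]; simp
    · have hf0' : X ⊆ Kf f0 := (Finset.mem_filter.1 hf0).2
      set I := (Finset.univ : Finset (Fin k)).filter (fun i => e (i, f0 i) ∈ X) with hI
      have hIcard : a + 1 ≤ I.card := by
        refine hX.trans ?_
        have hsub : X ⊆ I.image (fun i => e (i, f0 i)) := by
          intro x hx
          obtain ⟨i, _, hi⟩ := Finset.mem_image.1 (hf0' hx)
          refine Finset.mem_image.2 ⟨i, Finset.mem_filter.2 ⟨Finset.mem_univ _, ?_⟩, hi⟩
          show e (i, f0 i) ∈ X
          rw [hi]; exact hx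
        exact (Finset.card_le_card hsub).trans Finset.card_image_le
      have hIk : I.card ≤ k := by
        have := Finset.card_le_univ I
        rwa [Fintype.card_fin] at this
      have hsub : (Finset.univ : Finset (Fin k → Fin m)).filter (fun f => X ⊆ Kf f) ⊆
          (Finset.univ : Finset (Fin k → Fin m)).filter (fun f => ∀ i ∈ I, f i = f0 i) := by
        intro f hf
        refine Finset.mem_filter.2 ⟨Finset.mem_univ _, ?_⟩
        intro i hi
        have h1 : e (i, f0 i) ∈ Kf f := (Finset.mem_filter.1 hf).2 (Finset.mem_filter.1 hi).2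
        obtain ⟨i', _, hi'⟩ := Finset.mem_image.1 h1
        have h2 := Prod.ext_iff.1 (e.injective hi')
        have h3 : i' = i := h2.1
        rw [h3] at h2
        exact h2.2
      have h1 := Finset.card_le_card hsub
      rw [card_fix_aux I f0 ((Finset.univ : Finset (Fin k → Fin m)).filter
        (fun f => ∀ i ∈ I, f i = f0 i)) (fun f => by
          rw [Finset.mem_filter]
          exact ⟨fun h => h.2, fun h => ⟨Finset.mem_univ _, h⟩⟩),
        Fintype.card_fin, Fintype.card_fin] at h1
      calc _ ≤ m ^ (k - I.card) * m ^ (a + 1) := Nat.mul_le_mul_right _ h1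
        _ ≤ m ^ (k - I.card) * m ^ I.card :=
          Nat.mul_le_mul_left _ (Nat.pow_le_pow_right hm hIcard)
        _ = m ^ k := by rw [← pow_add]; congr 1; omega
  -- all bad functions
  set Bad := (Finset.univ : Finset (Fin S)).biUnion (fun j => (P j).biUnion (fun X =>
    (Finset.univ : Finset (Fin k → Fin m)).filter (fun f => X ⊆ Kf f))) with hBad
  have h1 : Bad.card * m ^ (a + 1) ≤ S * N * m ^ k := by
    calc Bad.card * m ^ (a + 1)
        ≤ (∑ j : Fin S, ∑ X ∈ P j, ((Finset.univ : Finset (Fin k → Fin m)).filter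
          (fun f => X ⊆ Kf f)).card) * m ^ (a + 1) := by
          refine Nat.mul_le_mul_right _ ?_
          refine Finset.card_biUnion_le.trans ?_
          exact Finset.sum_le_sum fun j _ => Finset.card_biUnion_le
      _ = ∑ j : Fin S, ∑ X ∈ P j, ((Finset.univ : Finset (Fin k → Fin m)).filter
          (fun f => X ⊆ Kf f)).card * m ^ (a + 1) := by
          rw [Finset.sum_mul]
          refine Finset.sum_congr rfl fun j _ => ?_
          rw [Finset.sum_mul]
      _ ≤ ∑ j : Fin S, ∑ X ∈ P j, m ^ k :=
          Finset.sum_le_sum fun j _ => Finset.sum_le_sum fun X hX => hbad X (hP' j X hX)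
      _ = ∑ j : Fin S, (P j).card * m ^ k := by
          refine Finset.sum_congr rfl fun j _ => ?_
          rw [Finset.sum_const, smul_eq_mul]
      _ ≤ ∑ _j : Fin S, N * m ^ k := Finset.sum_le_sum fun j _ => Nat.mul_le_mul_right _ (hP j)
      _ = S * N * m ^ k := by
          rw [Finset.sum_const, Finset.card_univ, Fintype.card_fin, smul_eq_mul, mul_assoc]
  have hmk : 0 < m ^ k := Nat.pow_pos hm
  have h2 : Bad.card < m ^ k := by
    by_contra hcon
    push Not at hcon
    have h3 : S * N * m ^ k < m ^ (a + 1) * m ^ k := Nat.mul_lt_mul_of_pos_right hS hmk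
    have h4 : m ^ (a + 1) * m ^ k ≤ Bad.card * m ^ (a + 1) := by
      rw [mul_comm]
      exact Nat.mul_le_mul_right _ hcon
    omega
  have h3 : ∃ f, f ∉ Bad := by
    by_contra hcon
    push Not at hcon
    have h4 : (Finset.univ : Finset (Fin k → Fin m)) ⊆ Bad := fun f _ => hcon f
    have h5 := Finset.card_le_card h4
    rw [Finset.card_univ, Fintype.card_fun, Fintype.card_fin, Fintype.card_fin] at h5
    omega
  obtain ⟨f, hf⟩ := h3
  refine ⟨Kf f, hKcard f, ?_⟩
  intro j X hX hXK
  apply hf
  rw [hBad]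
  refine Finset.mem_biUnion.2 ⟨j, Finset.mem_univ _, Finset.mem_biUnion.2 ⟨X, hX, ?_⟩⟩
  exact Finset.mem_filter.2 ⟨Finset.mem_univ _, hXK⟩

/-- A colouring with given values on a small set which does not respect the given labellings. -/
theorem exists_good_col {n S : ℕ} (b k c N : ℕ) (hc : 1 ≤ c) (K : Finset (Fin n))
    (hK : K.card = k) (π : Fin n → Fin c)
    (Q : Fin S → Finset (Fin n → Fin n)) (hQ : ∀ j, (Q j).card ≤ N)
    (hQ' : ∀ j, ∀ p ∈ Q j, ((Finset.univ : Finset (Fin n)).image p).card + (b + 1) ≤ n)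
    (hS : S * N * c ^ k < c ^ (b + 1)) :
    ∃ χ : Fin n → Fin c, (∀ x ∈ K, χ x = π x) ∧
      ∀ j, ∀ p ∈ Q j, ¬ ∀ x y, p x = p y → χ x = χ y := by
  classical
  have hkn : k ≤ n := by
    have := Finset.card_le_univ K
    rw [Fintype.card_fin] at this
    omega
  set Bad := (Finset.univ : Finset (Fin S)).biUnion (fun j => (Q j).biUnion (fun p =>
    (Finset.univ : Finset (Fin n → Fin c)).filter
      (fun χ => ∀ x y, p x = p y → χ x = χ y))) with hBad
  have hbad : ∀ j, ∀ p ∈ Q j, ((Finset.univ : Finset (Fin n → Fin c)).filter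
      (fun χ => ∀ x y, p x = p y → χ x = χ y)).card * c ^ (b + 1) ≤ c ^ n := by
    intro j p hp
    calc _ ≤ c ^ ((Finset.univ : Finset (Fin n)).image p).card * c ^ (b + 1) :=
          Nat.mul_le_mul_right _ (card_respect p)
      _ = c ^ (((Finset.univ : Finset (Fin n)).image p).card + (b + 1)) := (pow_add _ _ _).symm
      _ ≤ c ^ n := Nat.pow_le_pow_right hc (hQ' j p hp)
  have h1 : Bad.card * c ^ (b + 1) ≤ S * N * c ^ n := by
    calc Bad.card * c ^ (b + 1)
        ≤ (∑ j : Fin S, ∑ p ∈ Q j, ((Finset.univ : Finset (Fin n → Fin c)).filter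
          (fun χ => ∀ x y, p x = p y → χ x = χ y)).card) * c ^ (b + 1) := by
          refine Nat.mul_le_mul_right _ ?_
          refine Finset.card_biUnion_le.trans ?_
          exact Finset.sum_le_sum fun j _ => Finset.card_biUnion_le
      _ = ∑ j : Fin S, ∑ p ∈ Q j, ((Finset.univ : Finset (Fin n → Fin c)).filter
          (fun χ => ∀ x y, p x = p y → χ x = χ y)).card * c ^ (b + 1) := by
          rw [Finset.sum_mul]
          refine Finset.sum_congr rfl fun j _ => ?_
          rw [Finset.sum_mul]
      _ ≤ ∑ j : Fin S, ∑ _p ∈ Q j, c ^ n :=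
          Finset.sum_le_sum fun j _ => Finset.sum_le_sum fun p hp => hbad j p hp
      _ = ∑ j : Fin S, (Q j).card * c ^ n := by
          refine Finset.sum_congr rfl fun j _ => ?_
          rw [Finset.sum_const, smul_eq_mul]
      _ ≤ ∑ _j : Fin S, N * c ^ n := Finset.sum_le_sum fun j _ => Nat.mul_le_mul_right _ (hQ j)
      _ = S * N * c ^ n := by
          rw [Finset.sum_const, Finset.card_univ, Fintype.card_fin, smul_eq_mul, mul_assoc]
  have hcn : 0 < c ^ (n - k) := Nat.pow_pos hc
  have h2 : Bad.card < c ^ (n - k) := by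
    by_contra hcon
    push Not at hcon
    have h3 : S * N * c ^ n < c ^ (b + 1) * c ^ (n - k) := by
      have h4 : c ^ n = c ^ k * c ^ (n - k) := by rw [← pow_add]; congr 1; omega
      rw [h4, ← mul_assoc]
      exact Nat.mul_lt_mul_of_pos_right hS hcn
    have h4 : c ^ (b + 1) * c ^ (n - k) ≤ Bad.card * c ^ (b + 1) := by
      rw [mul_comm]
      exact Nat.mul_le_mul_right _ hcon
    omega
  have h3 : ∃ χ ∈ (Finset.univ : Finset (Fin n → Fin c)).filter (fun χ => ∀ x ∈ K, χ x = π x),
      χ ∉ Bad := by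
    by_contra hcon
    push Not at hcon
    have h5 := Finset.card_le_card (show (Finset.univ : Finset (Fin n → Fin c)).filter
      (fun χ => ∀ x ∈ K, χ x = π x) ⊆ Bad from hcon)
    rw [card_fix_aux K π ((Finset.univ : Finset (Fin n → Fin c)).filter
      (fun χ => ∀ x ∈ K, χ x = π x)) (fun f => by
        rw [Finset.mem_filter]
        exact ⟨fun h => h.2, fun h => ⟨Finset.mem_univ _, h⟩⟩),
      Fintype.card_fin, Fintype.card_fin, hK] at h5
    omega
  obtain ⟨χ, hχ, hχB⟩ := h3
  refine ⟨χ, (Finset.mem_filter.1 hχ).2, ?_⟩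
  intro j p hp hres
  apply hχB
  rw [hBad]
  refine Finset.mem_biUnion.2 ⟨j, Finset.mem_univ _, Finset.mem_biUnion.2 ⟨p, hp, ?_⟩⟩
  exact Finset.mem_filter.2 ⟨Finset.mem_univ _, hres⟩

end Pool.Agent.helper51.MC
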