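import Pool.Agent.helper51.MC.Core
import Pool.Agent.helper51.MC.Count

/-!
# Monotone reductions from cliques to model checking of `Σ₁`-sentences
-/

set_option autoImplicit false

namespace Pool.Agent.helper51.MC

/-- Quantifier-free formulas in the variables `x i`, `i : Fin m`, over relation symbols `Sym a` of
arity `a`. -/
inductive QF (Sym : ℕ → Type) (m : ℕ) : Type
  | fls : QF Sym m
  | eq (i j : Fin m) : QF Sym m
  | rel (a : ℕ) (R : Sym a) (v : Fin a → Fin m) : QF Sym m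
  | not (φ : QF Sym m) : QF Sym m
  | and (φ ψ : QF Sym m) : QF Sym m
  | or (φ ψ : QF Sym m) : QF Sym m
  | imp (φ ψ : QF Sym m) : QF Sym m

namespace QF

variable {Sym : ℕ → Type} {m : ℕ}

/-- The length: the number of symbols, apart from brackets. -/
def len : QF Sym m → ℕ
  | fls => 1
  | eq _ _ => 3
  | rel a _ _ => a + 1
  | not φ => φ.len + 1
  | and φ ψ => φ.len + ψ.len + 1
  | or φ ψ => φ.len + ψ.len + 1
  | imp φ ψ => φ.len + ψ.len + 1

/-- Truth in the structure with the relations `A` under the assignment `x`. -/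
def Holds {U : Type} (A : ∀ a, Sym a → (Fin a → U) → Prop) (x : Fin m → U) : QF Sym m → Prop
  | fls => False
  | eq i j => x i = x j
  | rel a R v => A a R (fun p => x (v p))
  | not φ => ¬ φ.Holds A x
  | and φ ψ => φ.Holds A x ∧ ψ.Holds A x
  | or φ ψ => φ.Holds A x ∨ ψ.Holds A x
  | imp φ ψ => φ.Holds A x → ψ.Holds A x

/-- `Pol Inc Dec true φ`: all positive occurrences of relation symbols in `φ` are occurrences of
symbols in `Inc` and all negative occurrences are occurrences of symbols in `Dec`.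
`Pol Inc Dec false φ`: the same with positive and negative exchanged. -/
def Pol (Inc Dec : ∀ a, Sym a → Prop) : Bool → QF Sym m → Prop
  | _, fls => True
  | _, eq _ _ => True
  | true, rel a R _ => Inc a R
  | false, rel a R _ => Dec a R
  | s, not φ => φ.Pol Inc Dec (!s)
  | s, and φ ψ => φ.Pol Inc Dec s ∧ ψ.Pol Inc Dec s
  | s, or φ ψ => φ.Pol Inc Dec s ∧ ψ.Pol Inc Dec s
  | s, imp φ ψ => φ.Pol Inc Dec (!s) ∧ ψ.Pol Inc Dec s

end QF

/-- A monotone reduction from the `k`-clique problem on graphs with vertex set `Fin n` to model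
checking of `Σ₁`-sentences of length at most `ℓ`, by a monotone circuit with `S` gates.

* `F i` is the graph property computed by the gate `i`; every gate is an input `u ~ v`, or the
  conjunction or the disjunction of any set of earlier gates (unbounded fan-in; the empty
  conjunction is true, the empty disjunction is false);
* the graph `G` is mapped to the relational structure `A(G)` with universe `dom G ⊆ U` and the
  relations `rel G`, in which membership in the universe and the atomic facts `R(t)` for the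
  symbols in `Inc` are computed by gates; for the symbols in `Dec`, the negated atomic facts
  `¬ R(t)` are computed by gates;
* the sentence is `∃ x₁ … x_m ψ`; symbols occur positively in `ψ` only if they are in `Inc` and
  negatively only if they are in `Dec` (so symbols whose relation does not depend on the graph may
  occur freely);
* `A(G)` satisfies the sentence if and only if `G` has a clique with `k` vertices. -/
structure MonotoneReduction (n k S ℓ : ℕ) where
  F : Fin S → SimpleGraph (Fin n) → Prop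
  gate : ∀ i, IsGate F i
  U : Type
  dom : SimpleGraph (Fin n) → Set U
  dom_gate : ∀ x, ∃ i, ∀ G, x ∈ dom G ↔ F i G
  Sym : ℕ → Type
  rel : SimpleGraph (Fin n) → ∀ a, Sym a → (Fin a → U) → Prop
  Inc : ∀ a, Sym a → Prop
  Dec : ∀ a, Sym a → Prop
  inc_gate : ∀ a R, Inc a R → ∀ t, ∃ i, ∀ G, rel G a R t ↔ F i G
  dec_gate : ∀ a R, Dec a R → ∀ t, ∃ i, ∀ G, ¬ rel G a R t ↔ F i G
  m : ℕ
  ψ : QF Sym m
  pol : ψ.Pol Inc Dec true
  len_le : 2 * m + ψ.len ≤ ℓ
  correct : ∀ G, (∃ x : Fin m → U, (∀ i, x i ∈ dom G) ∧ ψ.Holds (rel G) x) ↔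
    ∃ s : Finset (Fin n), G.IsNClique k s

/-- If the quantifier-free formula is true in `A(G)`, then a few true gates are responsible. -/
theorem holds_of_gates {n k S ℓ : ℕ} (ρ : MonotoneReduction n k S ℓ) (G : SimpleGraph (Fin n))
    (x : Fin ρ.m → ρ.U) (φ : QF ρ.Sym ρ.m) :
    (φ.Pol ρ.Inc ρ.Dec true → φ.Holds (ρ.rel G) x → ∃ Λ : Finset (Fin S), Λ.card ≤ φ.len ∧
      (∀ i ∈ Λ, ρ.F i G) ∧ ∀ G', (∀ i ∈ Λ, ρ.F i G') → φ.Holds (ρ.rel G') x) ∧
    (φ.Pol ρ.Inc ρ.Dec false → ¬ φ.Holds (ρ.rel G) x → ∃ Λ : Finset (Fin S), Λ.card ≤ φ.len ∧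
      (∀ i ∈ Λ, ρ.F i G) ∧ ∀ G', (∀ i ∈ Λ, ρ.F i G') → ¬ φ.Holds (ρ.rel G') x) := by
  classical
  induction φ with
  | fls =>
    refine ⟨fun _ h => h.elim, fun _ _ => ⟨∅, by simp, by simp, fun G' _ h => h⟩⟩
  | eq i j =>
    refine ⟨fun _ h => ⟨∅, by simp, by simp, fun G' _ => h⟩,
      fun _ h => ⟨∅, by simp, by simp, fun G' _ => h⟩⟩
  | rel a R v =>
    constructor
    · intro hI h
      obtain ⟨i, hi⟩ := ρ.inc_gate a R hI (fun p => x (v p))
      refine ⟨{i}, ?_, ?_, ?_⟩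
      · rw [Finset.card_singleton]
        exact Nat.le_add_left _ _
      · intro j hj
        rw [Finset.mem_singleton.1 hj]
        exact (hi G).1 h
      · intro G' hG'
        exact (hi G').2 (hG' i (Finset.mem_singleton_self _))
    · intro hI h
      obtain ⟨i, hi⟩ := ρ.dec_gate a R hI (fun p => x (v p))
      refine ⟨{i}, ?_, ?_, ?_⟩
      · rw [Finset.card_singleton]
        exact Nat.le_add_left _ _
      · intro j hj
        rw [Finset.mem_singleton.1 hj]
        exact (hi G).1 h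
      · intro G' hG'
        exact (hi G').2 (hG' i (Finset.mem_singleton_self _))
  | not φ ih =>
    constructor
    · intro hp h
      obtain ⟨Λ, h1, h2, h3⟩ := ih.2 hp h
      exact ⟨Λ, h1.trans (Nat.le_succ _), h2, h3⟩
    · intro hp h
      obtain ⟨Λ, h1, h2, h3⟩ := ih.1 hp (not_not.1 h)
      exact ⟨Λ, h1.trans (Nat.le_succ _), h2, fun G' hG' => not_not.2 (h3 G' hG')⟩
  | and φ ψ ih1 ih2 =>
    constructor
    · rintro ⟨hp1, hp2⟩ ⟨h1, h2⟩
      obtain ⟨Λ1, a1, a2, a3⟩ := ih1.1 hp1 h1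
      obtain ⟨Λ2, b1, b2, b3⟩ := ih2.1 hp2 h2
      refine ⟨Λ1 ∪ Λ2, ?_, ?_, ?_⟩
      · have := Finset.card_union_le Λ1 Λ2
        show _ ≤ φ.len + ψ.len + 1
        omega
      · intro i hi
        rcases Finset.mem_union.1 hi with hi | hi
        · exact a2 i hi
        · exact b2 i hi
      · intro G' hG'
        exact ⟨a3 G' fun i hi => hG' i (Finset.mem_union_left _ hi),
          b3 G' fun i hi => hG' i (Finset.mem_union_right _ hi)⟩
    · rintro ⟨hp1, hp2⟩ h
      by_cases h1 : φ.Holds (ρ.rel G) x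
      · have h2 : ¬ ψ.Holds (ρ.rel G) x := fun h2 => h ⟨h1, h2⟩
        obtain ⟨Λ2, b1, b2, b3⟩ := ih2.2 hp2 h2
        refine ⟨Λ2, ?_, b2, fun G' hG' h' => b3 G' hG' h'.2⟩
        show _ ≤ φ.len + ψ.len + 1
        omega
      · obtain ⟨Λ1, a1, a2, a3⟩ := ih1.2 hp1 h1
        refine ⟨Λ1, ?_, a2, fun G' hG' h' => a3 G' hG' h'.1⟩
        show _ ≤ φ.len + ψ.len + 1
        omega
  | or φ ψ ih1 ih2 =>
    constructor
    · rintro ⟨hp1, hp2⟩ (h | h)
      · obtain ⟨Λ1, a1, a2, a3⟩ := ih1.1 hp1 h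
        refine ⟨Λ1, ?_, a2, fun G' hG' => Or.inl (a3 G' hG')⟩
        show _ ≤ φ.len + ψ.len + 1
        omega
      · obtain ⟨Λ1, a1, a2, a3⟩ := ih2.1 hp2 h
        refine ⟨Λ1, ?_, a2, fun G' hG' => Or.inr (a3 G' hG')⟩
        show _ ≤ φ.len + ψ.len + 1
        omega
    · rintro ⟨hp1, hp2⟩ h
      have h1 : ¬ φ.Holds (ρ.rel G) x := fun h1 => h (Or.inl h1)
      have h2 : ¬ ψ.Holds (ρ.rel G) x := fun h2 => h (Or.inr h2)
      obtain ⟨Λ1, a1, a2, a3⟩ := ih1.2 hp1 h1
      obtain ⟨Λ2, b1, b2, b3⟩ := ih2.2 hp2 h2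
      refine ⟨Λ1 ∪ Λ2, ?_, ?_, ?_⟩
      · have := Finset.card_union_le Λ1 Λ2
        show _ ≤ φ.len + ψ.len + 1
        omega
      · intro i hi
        rcases Finset.mem_union.1 hi with hi | hi
        · exact a2 i hi
        · exact b2 i hi
      · rintro G' hG' (h' | h')
        · exact a3 G' (fun i hi => hG' i (Finset.mem_union_left _ hi)) h'
        · exact b3 G' (fun i hi => hG' i (Finset.mem_union_right _ hi)) h'
  | imp φ ψ ih1 ih2 =>
    constructor
    · rintro ⟨hp1, hp2⟩ h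
      by_cases h1 : φ.Holds (ρ.rel G) x
      · obtain ⟨Λ2, b1, b2, b3⟩ := ih2.1 hp2 (h h1)
        refine ⟨Λ2, ?_, b2, fun G' hG' _ => b3 G' hG'⟩
        show _ ≤ φ.len + ψ.len + 1
        omega
      · obtain ⟨Λ1, a1, a2, a3⟩ := ih1.2 hp1 h1
        refine ⟨Λ1, ?_, a2, fun G' hG' h' => absurd h' (a3 G' hG')⟩
        show _ ≤ φ.len + ψ.len + 1
        omega
    · rintro ⟨hp1, hp2⟩ h
      have h1 : φ.Holds (ρ.rel G) x := by
        by_contra h1
        exact h fun h' => absurd h' h1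
      have h2 : ¬ ψ.Holds (ρ.rel G) x := fun h2 => h fun _ => h2
      obtain ⟨Λ1, a1, a2, a3⟩ := ih1.1 hp1 h1
      obtain ⟨Λ2, b1, b2, b3⟩ := ih2.2 hp2 h2
      refine ⟨Λ1 ∪ Λ2, ?_, ?_, ?_⟩
      · have := Finset.card_union_le Λ1 Λ2
        show _ ≤ φ.len + ψ.len + 1
        omega
      · intro i hi
        rcases Finset.mem_union.1 hi with hi | hi
        · exact a2 i hi
        · exact b2 i hi
      · intro G' hG' h'
        exact b3 G' (fun i hi => hG' i (Finset.mem_union_right _ hi))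
          (h' (a3 G' fun i hi => hG' i (Finset.mem_union_left _ hi)))

/-- If the sentence is true in `A(G)`, then at most `ℓ` true gates are responsible. -/
theorem sentence_of_gates {n k S ℓ : ℕ} (ρ : MonotoneReduction n k S ℓ) (G : SimpleGraph (Fin n))
    (h : ∃ x : Fin ρ.m → ρ.U, (∀ i, x i ∈ ρ.dom G) ∧ ρ.ψ.Holds (ρ.rel G) x) :
    ∃ Λ : Finset (Fin S), Λ.card ≤ ℓ ∧ (∀ i ∈ Λ, ρ.F i G) ∧ ∀ G', (∀ i ∈ Λ, ρ.F i G') →
      ∃ x : Fin ρ.m → ρ.U, (∀ i, x i ∈ ρ.dom G') ∧ ρ.ψ.Holds (ρ.rel G') x := by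
  classical
  obtain ⟨x, hx, hψ⟩ := h
  obtain ⟨Λ, h1, h2, h3⟩ := (holds_of_gates ρ G x ρ.ψ).1 ρ.pol hψ
  have hd : ∀ i : Fin ρ.m, ∃ j, ∀ G, x i ∈ ρ.dom G ↔ ρ.F j G := fun i => ρ.dom_gate (x i)
  choose d hd using hd
  refine ⟨Λ ∪ (Finset.univ : Finset (Fin ρ.m)).image d, ?_, ?_, ?_⟩
  · have e1 := Finset.card_union_le Λ ((Finset.univ : Finset (Fin ρ.m)).image d)
    have e2 : ((Finset.univ : Finset (Fin ρ.m)).image d).card ≤ ρ.m := by
      refine Finset.card_image_le.trans ?_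
      rw [Finset.card_univ, Fintype.card_fin]
    have e3 := ρ.len_le
    omega
  · intro i hi
    rcases Finset.mem_union.1 hi with hi | hi
    · exact h2 i hi
    · obtain ⟨j, _, rfl⟩ := Finset.mem_image.1 hi
      exact (hd j G).1 (hx j)
  · intro G' hG'
    refine ⟨x, ?_, h3 G' fun i hi => hG' i (Finset.mem_union_left _ hi)⟩
    intro i
    exact (hd i G').2 (hG' _ (Finset.mem_union_right _
      (Finset.mem_image.2 ⟨i, Finset.mem_univ _, rfl⟩)))

/-- **Combinatorial core.** -/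
theorem no_reduction {n k S ℓ a b q : ℕ} (ha : 2 ≤ a) (hb : 1 ≤ b) (hk : 3 ≤ k)
    (hkq : k * q ≤ n)
    (hℓ : ℓ * a ^ 2 < k * (k - 1))
    (h1 : S * ((2 * b) ^ 2) ^ (a + 1) < q ^ (a + 1))
    (h2 : S * (a ^ 2) ^ (b + 1) * (k - 1) ^ k < (k - 1) ^ (b + 1)) :
    ¬ Nonempty (MonotoneReduction n k S ℓ) := by
  classical
  rintro ⟨ρ⟩
  obtain ⟨D, C, P, Q, hprp⟩ := approx a b (k - 1) ha hb ρ.F ρ.gate
  obtain ⟨K, hKk, hK⟩ := exists_good_set a k q (((2 * b) ^ 2) ^ (a + 1)) hkq P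
    (fun j => (hprp j).cP) (fun j => (hprp j).cP') h1
  -- the sentence is true for the complete graph on `K`
  have hclique : ∃ s : Finset (Fin n), (posG K).IsNClique k s := by
    refine ⟨K, ?_, hKk⟩
    intro u hu v hv huv
    exact ⟨huv, hu, hv⟩
  obtain ⟨Λ, hΛ, hΛK, hΛ'⟩ := sentence_of_gates ρ (posG K) ((ρ.correct _).2 hclique)
  -- the sets which are responsible
  have hX : ∀ j : Fin S, ∃ X : Finset (Fin n), X ⊆ K ∧ (j ∈ Λ → X ∈ D j) ∧ X.card ≤ a := by
    intro j
    by_cases hj : j ∈ Λ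
    · obtain ⟨X, hX, hXK⟩ := (hprp j).pos K (fun i _ => hK i) (hΛK j hj)
      exact ⟨X, hXK, fun _ => hX, (hprp j).dD X hX⟩
    · exact ⟨∅, Finset.empty_subset _, fun h => absurd h hj, by simp⟩
  choose X hXK hXD hXa using hX
  -- an uncovered pair
  have hpair : ∃ u ∈ K, ∃ v ∈ K, u ≠ v ∧ ∀ j ∈ Λ, ¬ (u ∈ X j ∧ v ∈ X j) := by
    by_contra hcon
    push Not at hcon
    have hsub : K.offDiag ⊆ Λ.biUnion (fun j => X j ×ˢ X j) := by
      rintro ⟨u, v⟩ huv
      rw [Finset.mem_offDiag] at huv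
      obtain ⟨j, hj, h3, h4⟩ := hcon u huv.1 v huv.2.1 huv.2.2
      exact Finset.mem_biUnion.2 ⟨j, hj, Finset.mem_product.2 ⟨h3, h4⟩⟩
    have h3 := Finset.card_le_card hsub
    rw [Finset.offDiag_card, hKk] at h3
    have h4 : (Λ.biUnion (fun j => X j ×ˢ X j)).card ≤ ℓ * a ^ 2 := by
      calc _ ≤ Λ.card * a ^ 2 := by
            refine Finset.card_biUnion_le_card_mul _ _ _ fun j _ => ?_
            rw [Finset.card_product, pow_two]
            exact Nat.mul_le_mul (hXa j) (hXa j)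
        _ ≤ ℓ * a ^ 2 := Nat.mul_le_mul_right _ hΛ
    have h5 : k * k - k = k * (k - 1) := by
      rw [Nat.mul_sub_one]
    omega
  obtain ⟨u, huK, v, hvK, huv, hcov⟩ := hpair
  -- the colouring which identifies `u` and `v`
  have hcard : ((K.erase v).card) = k - 1 := by
    rw [Finset.card_erase_of_mem hvK, hKk]
  obtain ⟨e⟩ : Nonempty ((K.erase v) ≃ Fin (k - 1)) := by
    rw [← Fintype.card_eq, Fintype.card_coe, hcard, Fintype.card_fin]
  have huE : u ∈ K.erase v := Finset.mem_erase.2 ⟨huv, huK⟩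
  set π : Fin n → Fin (k - 1) := fun x =>
    if h : x ∈ K.erase v then e ⟨x, h⟩ else e ⟨u, huE⟩ with hπ
  have hπinj : ∀ x ∈ K, ∀ y ∈ K, x ≠ y → π x = π y → (x = u ∧ y = v) ∨ (x = v ∧ y = u) := by
    intro x hx y hy hxy heq
    by_cases hxv : x = v
    · right
      refine ⟨hxv, ?_⟩
      have hyE : y ∈ K.erase v := Finset.mem_erase.2 ⟨fun h => hxy (hxv.trans h.symm), hy⟩
      have hxE : x ∉ K.erase v := by rw [hxv]; simp
      rw [hπ] at heq
      simp only [dif_neg hxE, dif_pos hyE] at heq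
      have := e.injective heq
      exact (Subtype.ext_iff.1 this).symm
    · have hxE : x ∈ K.erase v := Finset.mem_erase.2 ⟨hxv, hx⟩
      by_cases hyv : y = v
      · left
        refine ⟨?_, hyv⟩
        have hyE : y ∉ K.erase v := by rw [hyv]; simp
        rw [hπ] at heq
        simp only [dif_pos hxE, dif_neg hyE] at heq
        have := e.injective heq
        exact Subtype.ext_iff.1 this
      · exfalso
        have hyE : y ∈ K.erase v := Finset.mem_erase.2 ⟨hyv, hy⟩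
        rw [hπ] at heq
        simp only [dif_pos hxE, dif_pos hyE] at heq
        have := e.injective heq
        exact hxy (Subtype.ext_iff.1 this)
  obtain ⟨χ, hχK, hχ⟩ := exists_good_col b k (k - 1) ((a ^ 2) ^ (b + 1)) (by omega) K hKk π Q
    (fun j => (hprp j).cQ) (fun j => (hprp j).cQ') h2
  -- all the responsible gates are true on the multipartite graph
  have htrue : ∀ j ∈ Λ, ρ.F j (negG χ) := by
    intro j hj
    by_contra hfalse
    obtain ⟨p, hp, hpχ⟩ := (hprp j).neg χ (fun i _ => hχ i) hfalse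
    obtain ⟨x, hx, y, hy, hxy, hpxy⟩ := (hprp j).hit (X j) (hXD j hj) p hp
    have h3 := hpχ x y hpxy
    rw [hχK x (hXK j hx), hχK y (hXK j hy)] at h3
    rcases hπinj x (hXK j hx) y (hXK j hy) hxy h3 with ⟨rfl, rfl⟩ | ⟨rfl, rfl⟩
    · exact hcov j hj ⟨hx, hy⟩
    · exact hcov j hj ⟨hy, hx⟩
  obtain ⟨s, hs⟩ := (ρ.correct (negG χ)).1 (hΛ' (negG χ) htrue)
  have h3 : s.card ≤ k - 1 := by
    have h4 : s.card ≤ (Finset.univ : Finset (Fin (k - 1))).card := by
      refine Finset.card_le_card_of_injOn χ (fun _ _ => Finset.mem_coe.2 (Finset.mem_univ _)) ?_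
      intro x hx y hy hxy
      by_contra hne
      exact hs.1 hx hy hne hxy
    rwa [Finset.card_univ, Fintype.card_fin] at h4
  have h4 := hs.2
  omega

end Pool.Agent.helper51.MC
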