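import Pool.Agent.helper77.MC.Spec

/-!
Row GD of the project MC (architect helper77): one order is in at most one set of prefixed orders.
-/

set_option autoImplicit false

namespace Pool.Agent.helper77.MC

open Finset Numbering

theorem GD (h1 : FA_stmt) : GD_stmt := by
  intro β _ _ y c m w g hy hc hw hg f
  obtain ⟨hA, hB, -⟩ := h1 β y c c m m hy hc
  by_cases hex : ∃ J ∈ fam y c m, f ∈ prefixed J
  · obtain ⟨J, hJ, hf⟩ := hex
    have hz : ∀ J' ∈ fam y c m, J' ≠ J → (if f ∈ prefixed J' then g #J' else 0) = 0 := by
      intro J' hJ' hne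
      have hnot : f ∉ prefixed J' := by
        intro hf'
        have hcomp : J ⊆ J' ∨ J' ⊆ J := by
          by_contra hcon
          rw [not_or] at hcon
          exact (Finset.disjoint_left.1 (disjoint_prefixed_prefixed hcon.1 hcon.2) hf) hf'
        rcases hcomp with h | h
        · exact hne (hB J hJ J' hJ' h).symm
        · exact hne (hB J' hJ' J hJ h)
      rw [if_neg hnot]
    have hs : ∑ J' ∈ fam y c m, (if f ∈ prefixed J' then g #J' else 0) =
        (if f ∈ prefixed J then g #J else 0) :=
      Finset.sum_eq_single J hz (fun h => absurd hJ h)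
    rw [hs, if_pos hf]
    exact hg _ (hA J hJ).2.1
  · have hz : ∑ J' ∈ fam y c m, (if f ∈ prefixed J' then g #J' else 0) = 0 := by
      apply Finset.sum_eq_zero
      intro J' hJ'
      have hnot : f ∉ prefixed J' := fun hf' => hex ⟨J', hJ', hf'⟩
      rw [if_neg hnot]
    rw [hz]
    exact hw

end Pool.Agent.helper77.MC
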