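import Pool.Agent.helper77.MC.Spec

/-!
Row S1 of the project MC (architect helper77): one positive weight.
-/

set_option autoImplicit false

namespace Pool.Agent.helper77.MC

open Finset Numbering

open Pool.Agent.helper72.UP in
theorem S1 : S1_stmt := by
  intro n k x u hx hu
  have hneg : ∀ i, i ≠ u → x i < 0 := fun i hi =>
    lt_of_le_of_ne (not_lt.mp (fun h => hi ((hu i).1 h))) (hx i)
  have hupos : 0 < x u := (hu u).2 rfl
  have hfil : ∀ s : Finset (Fin n), s.filter (fun i => x i < 0) = s.erase u := by
    intro s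
    ext i
    simp only [Finset.mem_filter, Finset.mem_erase]
    constructor
    · rintro ⟨h1, h2⟩
      refine ⟨?_, h1⟩
      intro h
      rw [h] at h2
      exact absurd h2 (not_lt.mpr hupos.le)
    · rintro ⟨h1, h2⟩
      exact ⟨h2, hneg i h1⟩
  have hmem : ∀ s : Finset (Fin n), s.Nonempty → ∑ i ∈ s, x i = 0 → u ∈ s := by
    intro s hs h0
    by_contra hus
    have h1 : 0 < ∑ i ∈ s, - x i := Finset.sum_pos (fun i hi => by
      have h2 : i ≠ u := fun h => hus (h ▸ hi)
      have h3 := hneg i h2
      linarith) hs
    rw [Finset.sum_neg_distrib] at h1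
    linarith
  unfold zer
  apply Finset.card_le_card_of_injOn (fun s : Finset (Fin n) => s.subtype (fun i => x i < 0))
  · intro s hs
    have hs' := (Finset.mem_filter.1 (Finset.mem_coe.1 hs)).2
    obtain ⟨h1, h2, h3⟩ := hs'
    have hus : u ∈ s := hmem s h1 h3
    rw [Finset.mem_coe]
    unfold fam
    rw [Finset.mem_filter]
    refine ⟨Finset.mem_univ _, ?_, ?_⟩
    · have h4 : ∑ i ∈ s.subtype (fun i => x i < 0), - x i.1 =
          ∑ i ∈ s.filter (fun i => x i < 0), - x i :=
        Finset.sum_subtype_eq_sum_filter (fun i => - x i)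
      rw [h4, hfil s, Finset.sum_neg_distrib]
      have h5 := Finset.add_sum_erase s x hus
      linarith
    · rw [Finset.card_subtype, hfil s, Finset.card_erase_of_mem hus]
      omega
  · intro s hs t ht hst
    have hs' := (Finset.mem_filter.1 (Finset.mem_coe.1 hs)).2
    have ht' := (Finset.mem_filter.1 (Finset.mem_coe.1 ht)).2
    have hus : u ∈ s := hmem s hs'.1 hs'.2.2
    have hut : u ∈ t := hmem t ht'.1 ht'.2.2
    have h1 : s.subtype (fun i => x i < 0) = t.subtype (fun i => x i < 0) := hst
    have h2 : s.filter (fun i => x i < 0) = t.filter (fun i => x i < 0) := by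
      rw [← Finset.subtype_map, ← Finset.subtype_map, h1]
    rw [hfil s, hfil t] at h2
    rw [← Finset.insert_erase hus, ← Finset.insert_erase hut, h2]

end Pool.Agent.helper77.MC
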